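import Mathlib

/-!
# The generalized Wilf conjecture for Frobenius generalized numerical semigroups

The inequality `e(S) n(S) ≥ d (f₁ + 1) ⋯ (f_d + 1)` for every Frobenius generalized numerical
semigroup `(S, f)` in `ℕ ^ d`, every `d`, such that no sum of two nonzero elements of `S` is `≤ f`,
or such that the small part of `S` is rectangular, or such that `n(S) ≤ 3`.
-/

namespace Pool.Agent.Results.MP_96f5a9_co.NoSmallSums

open Finset

variable {d : ℕ}

/-- The gaps of `S`. -/
def gaps (S : AddSubmonoid (Fin d → ℕ)) : Set (Fin d → ℕ) := {x | x ∉ S}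

/-- The minimal generators of `S`: nonzero elements of `S` that are not a sum of two nonzero
elements of `S`. -/
def gens (S : AddSubmonoid (Fin d → ℕ)) : Set (Fin d → ℕ) :=
  {x | x ∈ S ∧ x ≠ 0 ∧ ∀ a ∈ S, ∀ b ∈ S, a ≠ 0 → b ≠ 0 → x ≠ a + b}

/-- The elements of `S` that lie below some gap. -/
def below (S : AddSubmonoid (Fin d → ℕ)) : Set (Fin d → ℕ) :=
  {x | x ∈ S ∧ ∃ h ∈ gaps S, x ≤ h}

/-- `(S, f)` is a Frobenius generalized numerical semigroup: finitely many gaps, and `f` is the
unique maximal gap. -/
structure IsFrobenius (S : AddSubmonoid (Fin d → ℕ)) (f : Fin d → ℕ) : Prop where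
  finite : (gaps S).Finite
  maximal_iff : ∀ g, Maximal (fun x => x ∈ gaps S) g ↔ g = f

variable {S : AddSubmonoid (Fin d → ℕ)} {f : Fin d → ℕ}

theorem IsFrobenius.not_mem (h : IsFrobenius S f) : f ∉ S :=
  ((h.maximal_iff f).2 rfl).prop

theorem IsFrobenius.le (h : IsFrobenius S f) {x : Fin d → ℕ} (hx : x ∉ S) : x ≤ f := by
  obtain ⟨g, h1, h2⟩ := h.finite.exists_le_maximal (show x ∈ gaps S from hx)
  rw [(h.maximal_iff g).1 h2] at h1
  exact h1

theorem IsFrobenius.mem (h : IsFrobenius S f) {x : Fin d → ℕ} (hx : ¬ x ≤ f) : x ∈ S := by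
  by_contra hcon
  exact hx (h.le hcon)

theorem below_eq (h : IsFrobenius S f) : below S = {x | x ∈ S ∧ x ≤ f} := by
  ext x
  constructor
  · rintro ⟨h1, g, h2, h3⟩
    exact ⟨h1, h3.trans (h.le h2)⟩
  · rintro ⟨h1, h2⟩
    exact ⟨h1, f, h.not_mem, h2⟩

/-- The shift of `x` by `(f i + 1) e_i`. -/
def sh (f : Fin d → ℕ) (i : Fin d) (x : Fin d → ℕ) : Fin d → ℕ := x + Pi.single i (f i + 1)

theorem sh_same (i : Fin d) (x : Fin d → ℕ) : sh f i x i = x i + (f i + 1) := by
  simp [sh]

theorem sh_ne {i j : Fin d} (h : j ≠ i) (x : Fin d → ℕ) : sh f i x j = x j := by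
  simp [sh, h]

theorem sh_not_le (i : Fin d) (x : Fin d → ℕ) : ¬ sh f i x ≤ f := by
  intro h
  have h1 : sh f i x i ≤ f i := h i
  rw [sh_same] at h1
  omega

theorem sh_ne_zero (i : Fin d) (x : Fin d → ℕ) : sh f i x ≠ 0 := by
  intro h
  have := congrFun h i
  rw [sh_same] at this
  simp at this

theorem gens_le (h : IsFrobenius S f) {x : Fin d → ℕ} (hx : x ∈ gens S) :
    x ≤ fun i => 2 * f i + 1 := by
  intro i
  by_contra hcon
  push Not at hcon
  simp only at hcon
  set a : Fin d → ℕ := Pi.single i (f i + 1) with ha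
  set b : Fin d → ℕ := Function.update x i (x i - (f i + 1)) with hb
  have hab : x = a + b := by
    funext j
    by_cases hj : j = i
    · subst hj
      simp [ha, hb]
      omega
    · simp [ha, hb, hj]
  have ha1 : ¬ a ≤ f := by
    intro hle
    have := hle i
    simp [ha] at this
  have hb1 : ¬ b ≤ f := by
    intro hle
    have := hle i
    simp [hb] at this
    omega
  have ha0 : a ≠ 0 := by
    intro h0; exact ha1 (h0 ▸ fun j => Nat.zero_le _)
  have hb0 : b ≠ 0 := by
    intro h0; exact hb1 (h0 ▸ fun j => Nat.zero_le _)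
  exact hx.2.2 a (h.mem ha1) b (h.mem hb1) ha0 hb0 hab

theorem gens_finite (h : IsFrobenius S f) : (gens S).Finite :=
  (Set.finite_Iic (fun i => 2 * f i + 1)).subset fun _ hx => gens_le h hx

/-- The decomposable elements of the `i`-th outer box. -/
theorem decomp (h : IsFrobenius S f) (i : Fin d) {x : Fin d → ℕ} (hx : x ≤ f)
    (hg : sh f i x ∉ gens S) :
    (∃ s ∈ S, s ≠ 0 ∧ s ≤ x) ∨
      (∃ a ∈ S, ∃ b ∈ S, a ≠ 0 ∧ b ≠ 0 ∧ a ≤ f ∧ b ≤ f ∧ sh f i x = a + b) := by
  have hS : sh f i x ∈ S := h.mem (sh_not_le i x)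
  have h1 : ∃ a ∈ S, ∃ b ∈ S, a ≠ 0 ∧ b ≠ 0 ∧ sh f i x = a + b := by
    by_contra hcon
    push Not at hcon
    exact hg ⟨hS, sh_ne_zero i x, fun a ha b hb ha0 hb0 => hcon a ha b hb ha0 hb0⟩
  obtain ⟨a, ha, b, hb, ha0, hb0, hab⟩ := h1
  have hj : ∀ j, j ≠ i → a j + b j = x j := by
    intro j hj
    have := congrFun hab j
    rw [sh_ne hj] at this
    exact this.symm
  have hi : a i + b i = x i + (f i + 1) := by
    have := congrFun hab i
    rw [sh_same] at this
    exact this.symm
  have hxi : x i ≤ f i := hx i
  have hxj : ∀ j, x j ≤ f j := fun j => hx j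
  have hbx : f i < a i → ∀ j, b j ≤ x j := by
    intro h2 j
    by_cases hji : j = i
    · rw [hji]; omega
    · have := hj j hji; omega
  have hax : f i < b i → ∀ j, a j ≤ x j := by
    intro h2 j
    by_cases hji : j = i
    · rw [hji]; omega
    · have := hj j hji; omega
  by_cases h2 : f i < a i
  · exact Or.inl ⟨b, hb, hb0, hbx h2⟩
  · by_cases h3 : f i < b i
    · exact Or.inl ⟨a, ha, ha0, hax h3⟩
    · have haf : ∀ j, a j ≤ f j := by
        intro j
        by_cases hji : j = i
        · rw [hji]; omega
        · have := hj j hji; have := hxj j; omega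
      have hbf : ∀ j, b j ≤ f j := by
        intro j
        by_cases hji : j = i
        · rw [hji]; omega
        · have := hj j hji; have := hxj j; omega
      exact Or.inr ⟨a, ha, b, hb, ha0, hb0, haf, hbf, hab⟩

theorem arith (D m e u σ B : ℕ) (h1 : 2 * u ≤ B) (h2 : 2 * σ ≤ m * (m + 1))
    (h3 : D * B + m ≤ e + D * u + σ) (h4 : m = 0 → u = 0) (h5 : m ≤ e) :
    D * B ≤ e * (m + 1) := by
  rcases Nat.eq_zero_or_pos m with hm | hm
  · have hu := h4 hm
    subst hm
    subst hu
    omega
  · rcases Nat.le_total (D * B) (m * (m + 1)) with h | h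
    · exact h.trans (Nat.mul_le_mul_right _ h5)
    · obtain ⟨k, rfl⟩ : ∃ k, m = k + 1 := ⟨m - 1, by omega⟩
      have h6 : D * (2 * u) ≤ D * B := Nat.mul_le_mul_left _ h1
      have h7 : D * B + 2 * (k + 1) ≤ 2 * e + (k + 1) * (k + 1 + 1) := by
        nlinarith
      nlinarith [Nat.mul_le_mul_left k h, Nat.mul_le_mul_left (k + 2) h7]

theorem caseA (d : ℕ) (S : AddSubmonoid (Fin d → ℕ)) (f : Fin d → ℕ) (hf : IsFrobenius S f)
    (hsum : ∀ s ∈ S, ∀ t ∈ S, s ≠ 0 → t ≠ 0 → ¬ s + t ≤ f) :
    (gens S).Finite ∧ (below S).Finite ∧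
      d * ∏ i, (f i + 1) ≤ (gens S).ncard * (below S).ncard := by
  classical
  have hfin := gens_finite hf
  have hbel := below_eq hf
  set box : Finset (Fin d → ℕ) := Finset.Iic f with hbox
  have hboxmem : ∀ x, x ∈ box ↔ x ≤ f := fun x => Finset.mem_Iic
  have hcard : box.card = ∏ i, (f i + 1) := by
    rw [hbox, Pi.card_Iic]
    simp
  set Nst : Finset (Fin d → ℕ) := box.filter (fun x => x ∈ S ∧ x ≠ 0) with hNst
  have hNmem : ∀ x, x ∈ Nst ↔ x ≤ f ∧ x ∈ S ∧ x ≠ 0 := by
    intro x; rw [hNst, Finset.mem_filter, hboxmem]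
  have h0 : (0 : Fin d → ℕ) ≤ f := fun i => Nat.zero_le _
  have hbelow : below S = ↑(insert 0 Nst) := by
    rw [hbel]
    ext x
    rw [Finset.coe_insert, Set.mem_insert_iff, Finset.mem_coe, hNmem]
    constructor
    · rintro ⟨h1, h2⟩
      by_cases hx : x = 0
      · exact Or.inl hx
      · exact Or.inr ⟨h2, h1, hx⟩
    · rintro (h1 | h1)
      · rw [h1]; exact ⟨S.zero_mem, h0⟩
      · exact ⟨h1.2.1, h1.1⟩
  have hbcard : (below S).ncard = Nst.card + 1 := by
    rw [hbelow, Set.ncard_coe_finset, Finset.card_insert_of_notMem]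
    intro hcon
    exact ((hNmem 0).1 hcon).2.2 rfl
  refine ⟨hfin, by rw [hbelow]; exact Finset.finite_toSet _, ?_⟩
  -- the upper part of the box
  set U : Finset (Fin d → ℕ) := box.filter (fun x => ∃ s ∈ S, s ≠ 0 ∧ s ≤ x) with hU
  have hU2 : 2 * U.card ≤ box.card := by
    have hdisj : Disjoint U (U.image (fun x => f - x)) := by
      rw [Finset.disjoint_left]
      intro x hx hx'
      rw [Finset.mem_image] at hx'
      obtain ⟨y, hy, hyx⟩ := hx'
      rw [hU, Finset.mem_filter, hboxmem] at hx hy
      obtain ⟨_, s, hs, hs0, hsx⟩ := hx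
      obtain ⟨hyf, t, ht, ht0, hty⟩ := hy
      refine hsum s hs t ht hs0 ht0 fun j => ?_
      have e1 : s j ≤ x j := hsx j
      have e2 : t j ≤ y j := hty j
      have e3 : y j ≤ f j := hyf j
      have e4 : f j - y j = x j := congrFun hyx j
      show s j + t j ≤ f j
      omega
    have himg : (U.image (fun x => f - x)).card = U.card := by
      apply Finset.card_image_of_injOn
      intro x hx y hy hxy
      rw [Finset.mem_coe, hU, Finset.mem_filter, hboxmem] at hx hy
      funext j
      have e1 : x j ≤ f j := hx.1 j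
      have e2 : y j ≤ f j := hy.1 j
      have e3 : f j - x j = f j - y j := congrFun hxy j
      omega
    have hsub : U ∪ U.image (fun x => f - x) ⊆ box := by
      intro x hx
      rw [Finset.mem_union] at hx
      rcases hx with hx | hx
      · exact (Finset.mem_filter.1 hx).1
      · rw [Finset.mem_image] at hx
        obtain ⟨y, _, rfl⟩ := hx
        rw [hboxmem]
        intro j
        exact Nat.sub_le _ _
    have h := Finset.card_le_card hsub
    rw [Finset.card_union_of_disjoint hdisj, himg] at h
    omega
  -- sums of two small elements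
  set Sm : Finset (Fin d → ℕ) :=
    Nst.sym2.image (fun z => Sym2.lift ⟨fun a b => a + b, fun a b => add_comm a b⟩ z) with hSm
  have hSmc : 2 * Sm.card ≤ Nst.card * (Nst.card + 1) := by
    have h1 : Sm.card ≤ Nat.choose (Nst.card + 1) 2 := by
      rw [← Finset.card_sym2]; exact Finset.card_image_le
    have h2 : Nat.choose (Nst.card + 1) 2 * 2 = (Nst.card + 1) * Nst.card := by
      rw [Nat.choose_two_right, Nat.add_sub_cancel]
      exact Nat.div_mul_cancel (even_iff_two_dvd.1 (by
        rw [mul_comm]; exact Nat.even_mul_succ_self _))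
    nlinarith
  -- the counting of pairs
  set T : Finset (Fin d × (Fin d → ℕ)) := (Finset.univ : Finset (Fin d)) ×ˢ box with hT
  set good := T.filter (fun p => sh f p.1 p.2 ∈ gens S) with hgood
  set bad1 : Finset (Fin d × (Fin d → ℕ)) := (Finset.univ : Finset (Fin d)) ×ˢ U with hbad1
  set bad2 := T.filter (fun p => sh f p.1 p.2 ∈ Sm) with hbad2
  have hshinj : Set.InjOn (fun p : Fin d × (Fin d → ℕ) => sh f p.1 p.2) (T : Set _) := by
    rintro ⟨i, x⟩ hx ⟨j, y⟩ hy hxy
    rw [Finset.mem_coe, hT, Finset.mem_product, hboxmem] at hx hy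
    simp only at hx hy hxy
    have hij : i = j := by
      by_contra hne
      have e1 := congrFun hxy i
      rw [sh_same, sh_ne hne] at e1
      have e2 : y i ≤ f i := hy.2 i
      omega
    subst hij
    have hxy' : x = y := by
      unfold sh at hxy
      exact add_right_cancel hxy
    rw [hxy']
  have hcover : T ⊆ good ∪ (bad1 ∪ bad2) := by
    rintro ⟨i, x⟩ hx
    rw [Finset.mem_union, Finset.mem_union]
    by_cases hg : sh f i x ∈ gens S
    · left
      rw [hgood, Finset.mem_filter]
      exact ⟨hx, hg⟩
    · right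
      have hxb := hx
      rw [hT, Finset.mem_product, hboxmem] at hxb
      rcases decomp hf i hxb.2 hg with ⟨s, hs, hs0, hsx⟩ | ⟨a, ha, b, hb, ha0, hb0, haf, hbf, hab⟩
      · left
        rw [hbad1, Finset.mem_product]
        refine ⟨Finset.mem_univ _, ?_⟩
        rw [hU, Finset.mem_filter, hboxmem]
        exact ⟨hxb.2, s, hs, hs0, hsx⟩
      · right
        rw [hbad2, Finset.mem_filter]
        refine ⟨hx, ?_⟩
        rw [hSm, Finset.mem_image]
        refine ⟨s(a, b), ?_, ?_⟩
        · rw [Finset.mk_mem_sym2_iff, hNmem, hNmem]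
          exact ⟨⟨haf, ha, ha0⟩, ⟨hbf, hb, hb0⟩⟩
        · rw [hab]; rfl
  have hTc : T.card = d * box.card := by
    rw [hT, Finset.card_product, Finset.card_univ, Fintype.card_fin]
  have hb1c : bad1.card = d * U.card := by
    rw [hbad1, Finset.card_product, Finset.card_univ, Fintype.card_fin]
  have hb2c : bad2.card ≤ Sm.card := by
    apply Finset.card_le_card_of_injOn (fun p => sh f p.1 p.2)
    · intro p hp
      rw [Finset.mem_coe, hbad2, Finset.mem_filter] at hp
      exact hp.2
    · exact hshinj.mono (by
        intro p hp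
        rw [Finset.mem_coe, hbad2, Finset.mem_filter] at hp
        exact hp.1)
  -- the generators
  have hgen : Nst.card + good.card ≤ (gens S).ncard := by
    have e1 : (gens S).ncard = hfin.toFinset.card := Set.ncard_eq_toFinset_card _ hfin
    rw [e1]
    have hdisj : Disjoint Nst (good.image (fun p => sh f p.1 p.2)) := by
      rw [Finset.disjoint_left]
      intro x hx hx'
      rw [Finset.mem_image] at hx'
      obtain ⟨p, _, hp⟩ := hx'
      rw [← hp] at hx
      exact sh_not_le _ _ ((hNmem _).1 hx).1
    have himg : (good.image (fun p => sh f p.1 p.2)).card = good.card := by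
      apply Finset.card_image_of_injOn
      exact hshinj.mono (by
        intro p hp
        rw [Finset.mem_coe, hgood, Finset.mem_filter] at hp
        exact hp.1)
    rw [← himg, ← Finset.card_union_of_disjoint hdisj]
    apply Finset.card_le_card
    intro x hx
    rw [Set.Finite.mem_toFinset]
    rw [Finset.mem_union] at hx
    rcases hx with hx | hx
    · rw [hNmem] at hx
      refine ⟨hx.2.1, hx.2.2, ?_⟩
      intro a ha b hb ha0 hb0 hab
      exact hsum a ha b hb ha0 hb0 (hab ▸ hx.1)
    · rw [Finset.mem_image] at hx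
      obtain ⟨p, hp, hpx⟩ := hx
      rw [hgood, Finset.mem_filter] at hp
      rw [← hpx]
      exact hp.2
  have hcount : d * box.card ≤ good.card + (d * U.card + Sm.card) := by
    rw [← hTc]
    calc T.card ≤ (good ∪ (bad1 ∪ bad2)).card := Finset.card_le_card hcover
      _ ≤ good.card + (bad1 ∪ bad2).card := Finset.card_union_le _ _
      _ ≤ good.card + (bad1.card + bad2.card) :=
          Nat.add_le_add_left (Finset.card_union_le _ _) _
      _ ≤ good.card + (d * U.card + Sm.card) := by rw [hb1c]; omega
  rw [← hcard, hbcard]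
  apply arith d Nst.card (gens S).ncard U.card Sm.card box.card hU2 hSmc
  · omega
  · intro hm
    rw [Finset.card_eq_zero] at hm ⊢
    rw [Finset.eq_empty_iff_forall_notMem]
    intro x hx
    rw [hU, Finset.mem_filter, hboxmem] at hx
    obtain ⟨hxf, s, hs, hs0, hsx⟩ := hx
    have : s ∈ Nst := (hNmem s).2 ⟨hsx.trans hxf, hs, hs0⟩
    rw [hm] at this
    exact absurd this (Finset.notMem_empty s)
  · omega

theorem below_finite {d : ℕ} {S : AddSubmonoid (Fin d → ℕ)} {f : Fin d → ℕ}
    (hf : IsFrobenius S f) : (below S).Finite := by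
  rw [below_eq hf]
  exact (Set.finite_Iic f).subset fun _ hx => hx.2

theorem caseB (d : ℕ) (S : AddSubmonoid (Fin d → ℕ)) (f : Fin d → ℕ) (hf : IsFrobenius S f)
    (s : Fin d → ℕ) (hsS : s ∈ S) (hs : ∀ x ∈ S, x ≤ f → ∃ k : ℕ, x = k • s) :
    d * ∏ i, (f i + 1) ≤ (gens S).ncard * (below S).ncard := by
  classical
  by_cases hN : ∀ x ∈ S, x ≤ f → x = 0
  · refine (caseA d S f hf ?_).2.2
    intro a ha b hb ha0 hb0 hab
    exact ha0 (hN a ha (le_trans (fun j => Nat.le_add_right _ _) hab))
  push Not at hN
  obtain ⟨x0, hx0S, hx0f, hx00⟩ := hN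
  obtain ⟨k0, hk0⟩ := hs x0 hx0S hx0f
  have hk0pos : 1 ≤ k0 := by
    rcases Nat.eq_zero_or_pos k0 with h | h
    · rw [h, zero_smul] at hk0; exact absurd hk0 hx00
    · exact h
  have hs0 : s ≠ 0 := by
    intro h; rw [h, smul_zero] at hk0; exact hx00 hk0
  have hsf : s ≤ f := by
    refine le_trans (fun j => ?_) hx0f
    rw [hk0]
    show s j ≤ k0 * s j
    exact Nat.le_mul_of_pos_left _ hk0pos
  obtain ⟨j0, hj0⟩ : ∃ j, s j ≠ 0 := by
    by_contra hcon
    push Not at hcon
    exact hs0 (funext hcon)
  -- the largest multiple in the box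
  have hex : ∃ k : ℕ, ¬ k • s ≤ f := by
    refine ⟨f j0 + 1, fun h => ?_⟩
    have h1 : (f j0 + 1) * s j0 ≤ f j0 := h j0
    have h2 : 1 ≤ s j0 := Nat.one_le_iff_ne_zero.2 hj0
    nlinarith
  obtain ⟨m, hm1, hm2⟩ : ∃ m : ℕ, m • s ≤ f ∧ ¬ (m + 1) • s ≤ f := by
    obtain ⟨q, hq, hmin⟩ : ∃ q : ℕ, ¬ q • s ≤ f ∧ ∀ r < q, r • s ≤ f :=
      ⟨Nat.find hex, Nat.find_spec hex, fun r hr => not_not.1 (Nat.find_min hex hr)⟩
    rcases q with _ | q
    · exfalso; apply hq; rw [zero_smul]; exact fun j => Nat.zero_le _
    · exact ⟨q, hmin q (Nat.lt_succ_self q), hq⟩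
  obtain ⟨i0, hi0⟩ : ∃ i, f i < (m + 1) * s i := by
    by_contra hcon
    push Not at hcon
    exact hm2 hcon
  have hmono : ∀ k l : ℕ, k ≤ l → ∀ j, (k • s) j ≤ (l • s) j := by
    intro k l hkl j
    show k * s j ≤ l * s j
    exact Nat.mul_le_mul_right _ hkl
  have hkm : ∀ k : ℕ, k • s ≤ f → k ≤ m := by
    intro k hk
    by_contra hcon
    push Not at hcon
    exact hm2 (le_trans (hmono (m + 1) k hcon) hk)
  have hinj : ∀ k l : ℕ, k • s = l • s → k = l := by
    intro k l h
    have h1 : k * s j0 = l * s j0 := congrFun h j0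
    exact Nat.eq_of_mul_eq_mul_right (Nat.pos_of_ne_zero hj0) h1
  set box : Finset (Fin d → ℕ) := Finset.Iic f with hbox
  have hboxmem : ∀ x, x ∈ box ↔ x ≤ f := fun x => Finset.mem_Iic
  have hcard : box.card = ∏ i, (f i + 1) := by
    rw [hbox, Pi.card_Iic]
    simp
  have hbcard : m + 1 ≤ (below S).ncard := by
    rw [Set.ncard_eq_toFinset_card _ (below_finite hf)]
    have e1 : m + 1 = (Finset.range (m + 1)).card := (Finset.card_range _).symm
    rw [e1]
    apply Finset.card_le_card_of_injOn (fun k => k • s)
    · intro k hk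
      rw [Finset.mem_coe, Finset.mem_range] at hk
      rw [Finset.mem_coe, Set.Finite.mem_toFinset, below_eq hf]
      exact ⟨S.nsmul_mem hsS k, le_trans (hmono k m (by omega)) hm1⟩
    · intro k _ l _ h
      exact hinj k l h
  set L : Finset (Fin d → ℕ) := box.filter (fun x => ¬ s ≤ x) with hL
  set U : Finset (Fin d → ℕ) := box.filter (fun x => s ≤ x) with hU
  have hUL : U.card + L.card = box.card := by
    rw [hU, hL]
    exact Finset.card_filter_add_card_filter_not _
  have hLm : box.card ≤ L.card * (m + 1) := by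
    have hsi : 0 < s i0 := by
      rcases Nat.eq_zero_or_pos (s i0) with h | h
      · rw [h] at hi0; simp at hi0
      · exact h
    have e1 : (L ×ˢ Finset.range (m + 1)).card = L.card * (m + 1) := by
      rw [Finset.card_product, Finset.card_range]
    rw [← e1]
    apply Finset.card_le_card_of_injOn
      (fun x => (Function.update x i0 (x i0 % s i0), x i0 / s i0))
    · intro x hx
      rw [Finset.mem_coe, hboxmem] at hx
      rw [Finset.mem_coe, Finset.mem_product, Finset.mem_range, hL, Finset.mem_filter, hboxmem]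
      have hxi : x i0 ≤ f i0 := hx i0
      refine ⟨⟨fun j => ?_, fun hcon => ?_⟩, ?_⟩
      · by_cases hj : j = i0
        · rw [hj]
          show Function.update x i0 (x i0 % s i0) i0 ≤ f i0
          rw [Function.update_self]
          exact (Nat.mod_le _ _).trans hxi
        · show Function.update x i0 (x i0 % s i0) j ≤ f j
          rw [Function.update_of_ne hj]
          exact hx j
      · have h1 : s i0 ≤ Function.update x i0 (x i0 % s i0) i0 := hcon i0
        rw [Function.update_self] at h1
        exact absurd (Nat.mod_lt (x i0) hsi) (by omega)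
      · show x i0 / s i0 < m + 1
        rw [Nat.div_lt_iff_lt_mul hsi]
        omega
    · intro x _ y _ hxy
      simp only [Prod.mk.injEq] at hxy
      obtain ⟨h1, h2⟩ := hxy
      funext j
      by_cases hj : j = i0
      · rw [hj]
        have h3 := congrFun h1 i0
        rw [Function.update_self, Function.update_self] at h3
        rw [← Nat.div_add_mod (x i0) (s i0), ← Nat.div_add_mod (y i0) (s i0), h2, h3]
      · have h3 := congrFun h1 j
        rw [Function.update_of_ne hj, Function.update_of_ne hj] at h3
        exact h3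
  -- the counting of pairs
  have hfin := gens_finite hf
  set T : Finset (Fin d × (Fin d → ℕ)) := (Finset.univ : Finset (Fin d)) ×ˢ box with hT
  set good := T.filter (fun p => sh f p.1 p.2 ∈ gens S) with hgood
  set bad1 : Finset (Fin d × (Fin d → ℕ)) := (Finset.univ : Finset (Fin d)) ×ˢ U with hbad1
  set bad2 := T.filter (fun p => sh f p.1 p.2 = (m + 1) • s) with hbad2
  have hshinj : Set.InjOn (fun p : Fin d × (Fin d → ℕ) => sh f p.1 p.2) (T : Set _) := by
    rintro ⟨i, x⟩ hx ⟨j, y⟩ hy hxy
    rw [Finset.mem_coe, hT, Finset.mem_product, hboxmem] at hx hy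
    simp only at hx hy hxy
    have hij : i = j := by
      by_contra hne
      have e1 := congrFun hxy i
      rw [sh_same, sh_ne hne] at e1
      have e2 : y i ≤ f i := hy.2 i
      omega
    subst hij
    have hxy' : x = y := by
      unfold sh at hxy
      exact add_right_cancel hxy
    rw [hxy']
  have hcover : T ⊆ good ∪ (bad1 ∪ bad2) := by
    rintro ⟨i, x⟩ hx
    rw [Finset.mem_union, Finset.mem_union]
    by_cases hg : sh f i x ∈ gens S
    · left
      rw [hgood, Finset.mem_filter]
      exact ⟨hx, hg⟩
    · right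
      have hxb := hx
      rw [hT, Finset.mem_product, hboxmem] at hxb
      by_cases hsx : s ≤ x
      · left
        rw [hbad1, Finset.mem_product, hU, Finset.mem_filter, hboxmem]
        exact ⟨Finset.mem_univ _, hxb.2, hsx⟩
      · right
        rw [hbad2, Finset.mem_filter]
        refine ⟨hx, ?_⟩
        show sh f i x = (m + 1) • s
        have key : ∃ k : ℕ, sh f i x = (k + 1) • s ∧ k ≤ 2 * m := by
          rcases decomp hf i hxb.2 hg with ⟨a, ha, ha0, hax⟩ | ⟨a, ha, b, hb, ha0, hb0, haf, hbf, hab⟩
          · exfalso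
            obtain ⟨k, hk⟩ := hs a ha (hax.trans hxb.2)
            have hk1 : 1 ≤ k := by
              rcases Nat.eq_zero_or_pos k with h | h
              · rw [h, zero_smul] at hk; exact absurd hk ha0
              · exact h
            apply hsx
            intro j
            have h1 := hmono 1 k hk1 j
            rw [one_smul, ← hk] at h1
            exact h1.trans (hax j)
          · obtain ⟨k, hk⟩ := hs a ha haf
            obtain ⟨l, hl⟩ := hs b hb hbf
            have hk1 : 1 ≤ k := by
              rcases Nat.eq_zero_or_pos k with h | h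
              · rw [h, zero_smul] at hk; exact absurd hk ha0
              · exact h
            have hkm' := hkm k (hk ▸ haf)
            have hlm' := hkm l (hl ▸ hbf)
            refine ⟨k + l - 1, ?_, by omega⟩
            rw [hab, hk, hl, ← add_smul]
            congr 1
            omega
        obtain ⟨k, hk, hk2⟩ := key
        rcases lt_trichotomy k m with h | h | h
        · exfalso
          apply sh_not_le (f := f) i x
          rw [hk]
          exact le_trans (hmono (k + 1) m h) hm1
        · rw [hk, h]
        · exfalso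
          apply hsx
          -- `k • s` is not in the box, hence it lies in the `i`-th outer box
          have h1 : ¬ k • s ≤ f := fun hcon => absurd (hkm k hcon) (by omega)
          have h2 : ∀ j, (k • s) j + s j = sh f i x j := by
            intro j
            rw [hk, add_smul, one_smul]; rfl
          have h3 : f i < (k • s) i := by
            by_contra hcon
            push Not at hcon
            apply h1
            intro j
            by_cases hj : j = i
            · rw [hj]; exact hcon
            · have h4 := h2 j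
              rw [sh_ne hj] at h4
              have h5 : x j ≤ f j := hxb.2 j
              show (k • s) j ≤ f j
              omega
          intro j
          show s j ≤ x j
          by_cases hj : j = i
          · rw [hj]
            have h4 := h2 i
            rw [sh_same] at h4
            omega
          · have h4 := h2 j
            rw [sh_ne hj] at h4
            omega
  have hTc : T.card = d * box.card := by
    rw [hT, Finset.card_product, Finset.card_univ, Fintype.card_fin]
  have hb1c : bad1.card = d * U.card := by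
    rw [hbad1, Finset.card_product, Finset.card_univ, Fintype.card_fin]
  have hb2c : bad2.card ≤ 1 := by
    rw [Finset.card_le_one]
    intro p hp q hq
    rw [hbad2, Finset.mem_filter] at hp hq
    exact hshinj hp.1 hq.1 (hp.2.trans hq.2.symm)
  have hgen : 1 + good.card ≤ (gens S).ncard := by
    rw [Set.ncard_eq_toFinset_card _ hfin]
    have hdisj : s ∉ good.image (fun p => sh f p.1 p.2) := by
      intro hx'
      rw [Finset.mem_image] at hx'
      obtain ⟨p, _, hp⟩ := hx'
      rw [← hp] at hsf
      exact sh_not_le _ _ hsf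
    have himg : (good.image (fun p => sh f p.1 p.2)).card = good.card := by
      apply Finset.card_image_of_injOn
      exact hshinj.mono (by
        intro p hp
        rw [Finset.mem_coe, hgood, Finset.mem_filter] at hp
        exact hp.1)
    rw [← himg, add_comm, ← Finset.card_insert_of_notMem hdisj]
    apply Finset.card_le_card
    intro x hx
    rw [Set.Finite.mem_toFinset]
    rw [Finset.mem_insert] at hx
    rcases hx with hx | hx
    · rw [hx]
      refine ⟨hsS, hs0, ?_⟩
      intro a ha b hb ha0 hb0 hab
      have haf : a ≤ f := le_trans (fun j => by rw [hab]; exact Nat.le_add_right _ _) hsf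
      have hbf : b ≤ f := le_trans (fun j => by rw [hab]; exact Nat.le_add_left _ _) hsf
      obtain ⟨k, hk⟩ := hs a ha haf
      obtain ⟨l, hl⟩ := hs b hb hbf
      have h1 : 1 • s = (k + l) • s := by
        rw [one_smul, add_smul, ← hk, ← hl]; exact hab
      have h2 := hinj _ _ h1
      have hk1 : k ≠ 0 := by
        intro h; rw [h, zero_smul] at hk; exact ha0 hk
      have hl1 : l ≠ 0 := by
        intro h; rw [h, zero_smul] at hl; exact hb0 hl
      omega
    · rw [Finset.mem_image] at hx
      obtain ⟨p, hp, hpx⟩ := hx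
      rw [hgood, Finset.mem_filter] at hp
      rw [← hpx]
      exact hp.2
  have hcount : d * box.card ≤ good.card + (d * U.card + 1) := by
    rw [← hTc]
    calc T.card ≤ (good ∪ (bad1 ∪ bad2)).card := Finset.card_le_card hcover
      _ ≤ good.card + (bad1 ∪ bad2).card := Finset.card_union_le _ _
      _ ≤ good.card + (bad1.card + bad2.card) :=
          Nat.add_le_add_left (Finset.card_union_le _ _) _
      _ ≤ good.card + (d * U.card + 1) := by rw [hb1c]; omega
  rw [← hcard]
  have h1 : d * L.card ≤ (gens S).ncard := by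
    rw [← hUL, Nat.mul_add] at hcount
    omega
  calc d * box.card ≤ d * (L.card * (m + 1)) := Nat.mul_le_mul_left _ hLm
    _ = (d * L.card) * (m + 1) := by ring
    _ ≤ (gens S).ncard * (below S).ncard := Nat.mul_le_mul h1 hbcard

/-- Every element of `S` in the box is a combination of the minimal generators in the box. -/
theorem span_box {d : ℕ} {S : AddSubmonoid (Fin d → ℕ)} {f : Fin d → ℕ}
    (T : Finset (Fin d → ℕ)) (hT : ∀ x, x ∈ T ↔ x ∈ gens S ∧ x ≤ f) :
    ∀ N : ℕ, ∀ x ∈ S, x ≤ f → ∑ i, x i ≤ N →
      ∃ a : (Fin d → ℕ) → ℕ, x = ∑ s ∈ T, a s • s := by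
  classical
  intro N
  induction N with
  | zero =>
    intro x _ _ hN
    refine ⟨fun _ => 0, ?_⟩
    have h0 : x = 0 := by
      funext i
      have := Finset.single_le_sum (f := x) (fun j _ => Nat.zero_le (x j)) (Finset.mem_univ i)
      show x i = 0
      omega
    rw [h0]; simp
  | succ N ih =>
    intro x hx hxf hN
    by_cases h0 : x = 0
    · exact ⟨fun _ => 0, by rw [h0]; simp⟩
    by_cases hg : x ∈ gens S
    · refine ⟨fun s => if s = x then 1 else 0, ?_⟩
      have hxT : x ∈ T := (hT x).2 ⟨hg, hxf⟩
      simp only [ite_smul, one_smul, zero_smul]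
      rw [Finset.sum_ite_eq' T x]
      simp [hxT]
    · have h1 : ∃ a ∈ S, ∃ b ∈ S, a ≠ 0 ∧ b ≠ 0 ∧ x = a + b := by
        by_contra hcon
        push Not at hcon
        exact hg ⟨hx, h0, fun a ha b hb ha0 hb0 => hcon a ha b hb ha0 hb0⟩
      obtain ⟨a, ha, b, hb, ha0, hb0, hab⟩ := h1
      have haf : a ≤ f := le_trans (fun j => by rw [hab]; exact Nat.le_add_right _ _) hxf
      have hbf : b ≤ f := le_trans (fun j => by rw [hab]; exact Nat.le_add_left _ _) hxf
      have hpos : ∀ c : Fin d → ℕ, c ≠ 0 → 1 ≤ ∑ i, c i := by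
        intro c hc
        by_contra hcon
        apply hc
        funext i
        have := Finset.single_le_sum (f := c) (fun j _ => Nat.zero_le (c j)) (Finset.mem_univ i)
        show c i = 0
        omega
      have hsum : ∑ i, x i = ∑ i, a i + ∑ i, b i := by
        rw [hab, ← Finset.sum_add_distrib]; rfl
      have h2 := hpos a ha0
      have h3 := hpos b hb0
      obtain ⟨α, hα⟩ := ih a ha haf (by omega)
      obtain ⟨β, hβ⟩ := ih b hb hbf (by omega)
      refine ⟨fun s => α s + β s, ?_⟩
      rw [hab, hα, hβ, ← Finset.sum_add_distrib]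
      exact Finset.sum_congr rfl fun s _ => (add_smul _ _ _).symm

theorem caseC (d : ℕ) (S : AddSubmonoid (Fin d → ℕ)) (f : Fin d → ℕ) (hf : IsFrobenius S f)
    (T : Finset (Fin d → ℕ)) (hT : ∀ x, x ∈ T ↔ x ∈ gens S ∧ x ≤ f)
    (hrect : ∀ a : (Fin d → ℕ) → ℕ, (∀ s ∈ T, a s • s ≤ f) → ∑ s ∈ T, a s • s ≤ f) :
    d * ∏ i, (f i + 1) ≤ (gens S).ncard * (below S).ncard := by
  classical
  have hspan := span_box (S := S) (f := f) T hT
  have hfin := gens_finite hf
  have hbfin := below_finite hf
  set box : Finset (Fin d → ℕ) := Finset.Iic f with hbox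
  have hboxmem : ∀ x, x ∈ box ↔ x ≤ f := fun x => Finset.mem_Iic
  have hcard : box.card = ∏ i, (f i + 1) := by
    rw [hbox, Pi.card_Iic]
    simp
  set L : Finset (Fin d → ℕ) := box.filter (fun x => ∀ s ∈ S, s ≠ 0 → ¬ s ≤ x) with hL
  -- every element of the box is a sum of an element of `S` and an element of `L`
  have hBL : box.card ≤ (below S).ncard * L.card := by
    rw [Set.ncard_eq_toFinset_card _ hbfin, ← Finset.card_product]
    have hsub : box ⊆ (hbfin.toFinset ×ˢ L).image (fun p => p.1 + p.2) := by
      intro x hx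
      rw [hboxmem] at hx
      set C : Finset (Fin d → ℕ) := box.filter (fun s => s ∈ S ∧ s ≤ x) with hC
      have hCne : C.Nonempty := ⟨0, by
        rw [hC, Finset.mem_filter, hboxmem]
        exact ⟨fun j => Nat.zero_le _, S.zero_mem, fun j => Nat.zero_le _⟩⟩
      obtain ⟨s, hs, hmax⟩ := Finset.exists_max_image C (fun s => ∑ i, s i) hCne
      rw [hC, Finset.mem_filter, hboxmem] at hs
      obtain ⟨hsf, hsS, hsx⟩ := hs
      rw [Finset.mem_image]
      refine ⟨(s, x - s), ?_, ?_⟩
      · rw [Finset.mem_product, Set.Finite.mem_toFinset, below_eq hf, hL, Finset.mem_filter,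
          hboxmem]
        refine ⟨⟨hsS, hsf⟩, le_trans (fun j => Nat.sub_le _ _) hx, ?_⟩
        intro t ht ht0 htx
        have h1 : s + t ≤ x := by
          intro j
          have e1 : t j ≤ x j - s j := htx j
          have e2 : s j ≤ x j := hsx j
          show s j + t j ≤ x j
          omega
        have h2 : s + t ∈ C := by
          rw [hC, Finset.mem_filter, hboxmem]
          exact ⟨h1.trans hx, S.add_mem hsS ht, h1⟩
        have h3 := hmax _ h2
        have h4 : ∑ i, (s + t) i = ∑ i, s i + ∑ i, t i := by
          rw [← Finset.sum_add_distrib]; rfl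
        apply ht0
        funext i
        have h5 := Finset.single_le_sum (f := t) (fun j _ => Nat.zero_le (t j))
          (Finset.mem_univ i)
        show t i = 0
        omega
      · funext j
        have e2 : s j ≤ x j := hsx j
        show s j + (x j - s j) = x j
        omega
    exact (Finset.card_le_card hsub).trans Finset.card_image_le
  -- the counting of pairs
  set P : Finset (Fin d × (Fin d → ℕ)) := (Finset.univ : Finset (Fin d)) ×ˢ L with hP
  set good := P.filter (fun p => sh f p.1 p.2 ∈ gens S) with hgood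
  set bad := P.filter (fun p => ¬ sh f p.1 p.2 ∈ gens S) with hbad
  have hLmem : ∀ x, x ∈ L ↔ x ≤ f ∧ ∀ s ∈ S, s ≠ 0 → ¬ s ≤ x := by
    intro x; rw [hL, Finset.mem_filter, hboxmem]
  have hshinj : Set.InjOn (fun p : Fin d × (Fin d → ℕ) => sh f p.1 p.2) (P : Set _) := by
    rintro ⟨i, x⟩ hx ⟨j, y⟩ hy hxy
    rw [Finset.mem_coe, hP, Finset.mem_product, hLmem] at hx hy
    simp only at hx hy hxy
    have hij : i = j := by
      by_contra hne
      have e1 := congrFun hxy i
      rw [sh_same, sh_ne hne] at e1
      have e2 : y i ≤ f i := hy.2.1 i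
      omega
    subst hij
    have hxy' : x = y := by
      unfold sh at hxy
      exact add_right_cancel hxy
    rw [hxy']
  have hTS : ∀ s ∈ T, s ∈ S ∧ s ≠ 0 := fun s hs => ⟨((hT s).1 hs).1.1, ((hT s).1 hs).1.2.1⟩
  -- the largest multiples
  have hk : ∀ s : Fin d → ℕ, ∃ k : ℕ, s ∈ T → k • s ≤ f ∧ ¬ (k + 1) • s ≤ f := by
    intro s
    by_cases hs : s ∈ T
    · obtain ⟨j0, hj0⟩ : ∃ j, s j ≠ 0 := by
        by_contra hcon
        push Not at hcon
        exact (hTS s hs).2 (funext hcon)
      have hex : ∃ k : ℕ, ¬ k • s ≤ f := by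
        refine ⟨f j0 + 1, fun h => ?_⟩
        have h1 : (f j0 + 1) * s j0 ≤ f j0 := h j0
        have h2 : 1 ≤ s j0 := Nat.one_le_iff_ne_zero.2 hj0
        nlinarith
      obtain ⟨q, hq, hmin⟩ : ∃ q : ℕ, ¬ q • s ≤ f ∧ ∀ r < q, r • s ≤ f :=
        ⟨Nat.find hex, Nat.find_spec hex, fun r hr => not_not.1 (Nat.find_min hex hr)⟩
      rcases q with _ | q
      · exfalso; apply hq; rw [zero_smul]; exact fun j => Nat.zero_le _
      · exact ⟨q, fun _ => ⟨hmin q (Nat.lt_succ_self q), hq⟩⟩
    · exact ⟨0, fun h => absurd h hs⟩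
  choose k hk using hk
  have hbadc : bad.card ≤ T.card := by
    have himg : (bad.image (fun p => sh f p.1 p.2)).card = bad.card := by
      apply Finset.card_image_of_injOn
      exact hshinj.mono (by
        intro p hp
        rw [Finset.mem_coe, hbad, Finset.mem_filter] at hp
        exact hp.1)
    rw [← himg]
    refine le_trans (Finset.card_le_card (t := T.image (fun s => (k s + 1) • s)) ?_)
      Finset.card_image_le
    intro y hy
    rw [Finset.mem_image] at hy
    obtain ⟨⟨i, x⟩, hp, hpy⟩ := hy
    simp only at hpy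
    rw [hbad, Finset.mem_filter, hP, Finset.mem_product, hLmem] at hp
    obtain ⟨⟨_, hxf, hxL⟩, hng⟩ := hp
    simp only at hxf hxL hng
    rcases decomp hf i hxf hng with ⟨s, hs, hs0, hsx⟩ | ⟨a, ha, b, hb, ha0, hb0, haf, hbf, hab⟩
    · exact absurd hsx (hxL s hs hs0)
    obtain ⟨α, hα⟩ := hspan _ a ha haf le_rfl
    obtain ⟨β, hβ⟩ := hspan _ b hb hbf le_rfl
    set γ : (Fin d → ℕ) → ℕ := fun s => α s + β s with hγ
    have hyγ : y = ∑ s ∈ T, γ s • s := by
      rw [← hpy, hab, hα, hβ, ← Finset.sum_add_distrib]
      exact Finset.sum_congr rfl fun s _ => (add_smul _ _ _).symm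
    have hynf : ¬ y ≤ f := by rw [← hpy]; exact sh_not_le i x
    obtain ⟨s, hsT, hs1⟩ : ∃ s ∈ T, ¬ γ s • s ≤ f := by
      by_contra hcon
      push Not at hcon
      exact hynf (hyγ ▸ hrect γ hcon)
    have hs2 : k s + 1 ≤ γ s := by
      by_contra hcon
      apply hs1
      refine le_trans (fun j => ?_) (hk s hsT).1
      show γ s * s j ≤ k s * s j
      exact Nat.mul_le_mul_right _ (by omega)
    -- the difference `y - t` of `y` and a generator `t` which is still outside of the box
    have hout : ∀ t ∈ T, ∀ w : Fin d → ℕ, y = w + t → w ≤ f := by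
      intro t ht w hw
      by_contra hcon
      apply hxL t (hTS t ht).1 (hTS t ht).2
      have h2 : ∀ j, w j + t j = sh f i x j := by
        intro j
        rw [hpy, hw]; rfl
      have h3 : f i < w i := by
        by_contra hcon2
        push Not at hcon2
        apply hcon
        intro j
        by_cases hj : j = i
        · rw [hj]; exact hcon2
        · have h4 := h2 j
          rw [sh_ne hj] at h4
          have h5 : x j ≤ f j := hxf j
          show w j ≤ f j
          omega
      intro j
      show t j ≤ x j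
      by_cases hj : j = i
      · rw [hj]
        have h4 := h2 i
        rw [sh_same] at h4
        omega
      · have h4 := h2 j
        rw [sh_ne hj] at h4
        omega
    rw [Finset.mem_image]
    refine ⟨s, hsT, ?_⟩
    -- the rest of `y` is zero
    have hy2 : y = (k s + 1) • s + ((γ s - (k s + 1)) • s + ∑ t ∈ T.erase s, γ t • t) := by
      rw [← add_assoc, ← add_smul, Nat.add_sub_cancel' hs2, hyγ]
      exact (Finset.add_sum_erase T (fun t => γ t • t) hsT).symm
    have hz : ∀ t ∈ T, ∀ r : Fin d → ℕ,
        (γ s - (k s + 1)) • s + ∑ t ∈ T.erase s, γ t • t ≠ r + t := by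
      intro t ht r hr
      have h1 : y = ((k s + 1) • s + r) + t := by rw [hy2, hr, add_assoc]
      have h2 := hout t ht _ h1
      exact (hk s hsT).2 (le_trans (fun j => Nat.le_add_right _ _) h2)
    have hA : γ s - (k s + 1) = 0 := by
      by_contra hne
      obtain ⟨q, hq⟩ := Nat.exists_eq_succ_of_ne_zero hne
      apply hz s hsT (q • s + ∑ t ∈ T.erase s, γ t • t)
      rw [hq, Nat.succ_eq_add_one, add_smul, one_smul]
      abel
    have hB : ∀ t ∈ T.erase s, γ t = 0 := by
      intro t ht
      by_contra hne
      obtain ⟨q, hq⟩ := Nat.exists_eq_succ_of_ne_zero hne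
      have htT := Finset.mem_of_mem_erase ht
      apply hz t htT ((γ s - (k s + 1)) • s + (q • t + ∑ u ∈ (T.erase s).erase t, γ u • u))
      rw [← Finset.add_sum_erase (T.erase s) (fun u => γ u • u) ht]
      rw [hq, Nat.succ_eq_add_one, add_smul, one_smul]
      abel
    rw [hy2, hA, zero_smul, zero_add, Finset.sum_eq_zero, add_zero]
    intro t ht
    rw [hB t ht, zero_smul]
  have hPc : P.card = d * L.card := by
    rw [hP, Finset.card_product, Finset.card_univ, Fintype.card_fin]
  have hsplit : good.card + bad.card = P.card := by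
    rw [hgood, hbad]
    exact Finset.card_filter_add_card_filter_not _
  have hgen : T.card + good.card ≤ (gens S).ncard := by
    rw [Set.ncard_eq_toFinset_card _ hfin]
    have hdisj : Disjoint T (good.image (fun p => sh f p.1 p.2)) := by
      rw [Finset.disjoint_left]
      intro x hx hx'
      rw [Finset.mem_image] at hx'
      obtain ⟨p, _, hp⟩ := hx'
      rw [← hp] at hx
      exact sh_not_le _ _ ((hT _).1 hx).2
    have himg : (good.image (fun p => sh f p.1 p.2)).card = good.card := by
      apply Finset.card_image_of_injOn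
      exact hshinj.mono (by
        intro p hp
        rw [Finset.mem_coe, hgood, Finset.mem_filter] at hp
        exact hp.1)
    rw [← himg, ← Finset.card_union_of_disjoint hdisj]
    apply Finset.card_le_card
    intro x hx
    rw [Set.Finite.mem_toFinset]
    rw [Finset.mem_union] at hx
    rcases hx with hx | hx
    · exact ((hT x).1 hx).1
    · rw [Finset.mem_image] at hx
      obtain ⟨p, hp, hpx⟩ := hx
      rw [hgood, Finset.mem_filter] at hp
      rw [← hpx]
      exact hp.2
  rw [← hcard]
  have h1 : d * L.card ≤ (gens S).ncard := by omega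
  calc d * box.card ≤ d * ((below S).ncard * L.card) := Nat.mul_le_mul_left _ hBL
    _ = (d * L.card) * (below S).ncard := by ring
    _ ≤ (gens S).ncard * (below S).ncard := Nat.mul_le_mul_right _ h1

/-- **The generalized Wilf conjecture** for a Frobenius generalized numerical semigroup `(S, f)` in
`ℕ ^ d`, when no sum of two nonzero elements of `S` is `≤ f`, or when a combination of the minimal
generators `s ≤ f` is `≤ f` as soon as each of its terms `a s • s` is `≤ f`, or when at most three
elements of `S` are `≤ f`. -/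
theorem result (d : ℕ) (S : AddSubmonoid (Fin d → ℕ)) (f : Fin d → ℕ) (hf : IsFrobenius S f)
    (h : (∀ s ∈ S, ∀ t ∈ S, s ≠ 0 → t ≠ 0 → ¬ s + t ≤ f) ∨
      (∃ T : Finset (Fin d → ℕ), (∀ x, x ∈ T ↔ x ∈ gens S ∧ x ≤ f) ∧
        ∀ a : (Fin d → ℕ) → ℕ, (∀ s ∈ T, a s • s ≤ f) → ∑ s ∈ T, a s • s ≤ f) ∨
      (below S).ncard ≤ 3) :
    (gens S).Finite ∧ (below S).Finite ∧
      d * ∏ i, (f i + 1) ≤ (gens S).ncard * (below S).ncard := by
  classical
  refine ⟨gens_finite hf, below_finite hf, ?_⟩
  rcases h with h | ⟨T, hT, hrect⟩ | h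
  · exact (caseA d S f hf h).2.2
  · exact caseC d S f hf T hT hrect
  · by_cases hA : ∀ s ∈ S, ∀ t ∈ S, s ≠ 0 → t ≠ 0 → ¬ s + t ≤ f
    · exact (caseA d S f hf hA).2.2
    · push Not at hA
      obtain ⟨a, ha, b, hb, ha0, hb0, hab⟩ := hA
      have haf : a ≤ f := le_trans (fun j => Nat.le_add_right _ _) hab
      have hbf : b ≤ f := le_trans (fun j => Nat.le_add_left _ _) hab
      have hfin := below_finite hf
      rw [Set.ncard_eq_toFinset_card _ hfin] at h
      have hmem : ∀ x, x ∈ hfin.toFinset ↔ x ∈ S ∧ x ≤ f := by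
        intro x; rw [Set.Finite.mem_toFinset, below_eq hf]; rfl
      have hab0 : a + b ≠ 0 := by
        intro h0
        apply ha0
        funext j
        have := congrFun h0 j
        simp at this
        simpa using this.1
      have haab : a ≠ a + b := by
        intro h0; exact hb0 (by simpa using h0)
      have hbab : b ≠ a + b := by
        intro h0; exact ha0 (by simpa using h0)
      by_cases hne : a = b
      · subst hne
        have hsub : ({0, a, a + a} : Finset (Fin d → ℕ)) ⊆ hfin.toFinset := by
          intro x hx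
          rw [hmem]
          simp only [Finset.mem_insert, Finset.mem_singleton] at hx
          rcases hx with hx | hx | hx
          · rw [hx]; exact ⟨S.zero_mem, fun j => Nat.zero_le _⟩
          · rw [hx]; exact ⟨ha, haf⟩
          · rw [hx]; exact ⟨S.add_mem ha ha, hab⟩
        have hc3 : ({0, a, a + a} : Finset (Fin d → ℕ)).card = 3 := by
          rw [Finset.card_insert_of_notMem, Finset.card_insert_of_notMem, Finset.card_singleton]
          · simpa using haab
          · simp only [Finset.mem_insert, Finset.mem_singleton, not_or]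
            exact ⟨fun h0 => ha0 h0.symm, fun h0 => hab0 h0.symm⟩
        have heq := Finset.eq_of_subset_of_card_le hsub (by rw [hc3]; exact h)
        refine caseB d S f hf a ha fun x hx hxf => ?_
        have hx' : x ∈ hfin.toFinset := (hmem x).2 ⟨hx, hxf⟩
        rw [← heq] at hx'
        simp only [Finset.mem_insert, Finset.mem_singleton] at hx'
        rcases hx' with h1 | h1 | h1
        · exact ⟨0, by rw [h1, zero_smul]⟩
        · exact ⟨1, by rw [h1, one_smul]⟩
        · exact ⟨2, by rw [h1, two_smul]⟩
      · exfalso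
        have hsub : ({0, a, b, a + b} : Finset (Fin d → ℕ)) ⊆ hfin.toFinset := by
          intro x hx
          rw [hmem]
          simp only [Finset.mem_insert, Finset.mem_singleton] at hx
          rcases hx with hx | hx | hx | hx
          · rw [hx]; exact ⟨S.zero_mem, fun j => Nat.zero_le _⟩
          · rw [hx]; exact ⟨ha, haf⟩
          · rw [hx]; exact ⟨hb, hbf⟩
          · rw [hx]; exact ⟨S.add_mem ha hb, hab⟩
        have hc4 : ({0, a, b, a + b} : Finset (Fin d → ℕ)).card = 4 := by
          rw [Finset.card_insert_of_notMem, Finset.card_insert_of_notMem,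
            Finset.card_insert_of_notMem, Finset.card_singleton]
          · simpa using hbab
          · simp only [Finset.mem_insert, Finset.mem_singleton, not_or]
            exact ⟨hne, haab⟩
          · simp only [Finset.mem_insert, Finset.mem_singleton, not_or]
            exact ⟨fun h0 => ha0 h0.symm, fun h0 => hb0 h0.symm, fun h0 => hab0 h0.symm⟩
        have := Finset.card_le_card hsub
        omega

end Pool.Agent.Results.MP_96f5a9_co.NoSmallSums
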